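import Mathlib

/-!
# The loneliness gap can drop under translation

For a finite set `V` of positive integers let `κ(V) = sup_t min_{v ∈ V} ‖t v‖`. The inequality
`κ(a + V) ≥ κ(V)` fails in a strong sense for every number `n ≥ 2` of speeds: for every `ε > 0`
there are an `n`-set `V` and `a ≥ 1` with `1/2 - ε < κ(V) < 1/2`, but `κ(a + V) ≤ 1/n` and
`κ(a + V) < κ(V)`; for `n ≥ 3` one can take both `V` and `a + V` with greatest common divisor `1`.
-/

set_option autoImplicit false

namespace Pool.Agent.Results.MP_64d5df_nt.TranslatesDrop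

/-- distance to the nearest integer -/
noncomputable def dist1 (x : ℝ) : ℝ := |x - round x|

/-- the loneliness gap `κ(V) = sup_t min_{v ∈ V} ‖t v‖` of a finite set of natural numbers -/
noncomputable def kappa (V : Finset ℕ) : ℝ := ⨆ t : ℝ, ⨅ v : V, dist1 (t * (v : ℕ))

/-- the translate `a + V` -/
def translate (a : ℕ) (V : Finset ℕ) : Finset ℕ := V.image (fun v => a + v)

lemma dist1_nonneg (x : ℝ) : 0 ≤ dist1 x := abs_nonneg _

lemma dist1_le (x : ℝ) (n : ℤ) : dist1 x ≤ |x - n| := round_le x n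

lemma dist1_le_half (x : ℝ) : dist1 x ≤ 1 / 2 := abs_sub_round x

lemma inf_le {V : Finset ℕ} (t : ℝ) {v : ℕ} (hv : v ∈ V) :
    ⨅ v : V, dist1 (t * (v : ℕ)) ≤ dist1 (t * v) := by
  have hb : BddBelow (Set.range (fun v : V => dist1 (t * (v : ℕ)))) :=
    ⟨0, by rintro _ ⟨w, rfl⟩; exact dist1_nonneg _⟩
  exact ciInf_le hb ⟨v, hv⟩

lemma kappa_le {V : Finset ℕ} {c : ℝ} (h : ∀ t : ℝ, ∃ v ∈ V, dist1 (t * v) ≤ c) :
    kappa V ≤ c := by
  apply ciSup_le
  intro t
  obtain ⟨v, hv, hc⟩ := h t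
  exact (inf_le t hv).trans hc

lemma le_kappa {V : Finset ℕ} (hV : V.Nonempty) {c t : ℝ} (h : ∀ v ∈ V, c ≤ dist1 (t * v)) :
    c ≤ kappa V := by
  have : Nonempty V := hV.to_subtype
  obtain ⟨v0, hv0⟩ := hV
  have hb : BddAbove (Set.range (fun t : ℝ => ⨅ v : V, dist1 (t * (v : ℕ)))) := by
    refine ⟨1 / 2, ?_⟩
    rintro _ ⟨s, rfl⟩
    exact (inf_le s hv0).trans (dist1_le_half _)
  refine le_trans ?_ (le_ciSup hb t)
  exact le_ciInf (fun v => h v v.2)

/-- A set with `1` and an even number has `κ < 1/2`. -/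
lemma kappa_lt_half {V : Finset ℕ} (h1 : 1 ∈ V) {k : ℕ} (he : 2 * k ∈ V) :
    kappa V < 1 / 2 := by
  have hk : (0:ℝ) ≤ k := Nat.cast_nonneg _
  have hc : ((k:ℝ) / (2 * k + 1)) < 1 / 2 := by
    rw [div_lt_div_iff₀ (by positivity) (by norm_num)]; linarith
  refine lt_of_le_of_lt (kappa_le (c := (k:ℝ) / (2 * k + 1)) ?_) hc
  intro t
  by_cases ht : dist1 (t * (1 : ℕ)) ≤ (k:ℝ) / (2 * k + 1)
  · exact ⟨1, h1, ht⟩
  · refine ⟨2 * k, he, ?_⟩
    push Not at ht
    -- `t = n ± (1/2 - s)` with `0 ≤ s < 1/(2 (2k+1))`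
    have h3 := dist1_le_half (t * (1 : ℕ))
    unfold dist1 at ht h3
    set n := round (t * ((1 : ℕ) : ℝ)) with hn
    have hkk : (k:ℝ) / (2 * k + 1) = 1 / 2 - 1 / (2 * (2 * k + 1)) := by
      field_simp; ring
    rcases le_total 0 (t * ((1 : ℕ) : ℝ) - n) with hs | hs
    · rw [abs_of_nonneg hs] at ht h3
      push_cast at ht h3
      refine (dist1_le _ (2 * k * n + k)).trans ?_
      have e1 : t * ((2 * k : ℕ) : ℝ) - ((2 * k * n + k : ℤ) : ℝ) = - (2 * k * (n + 1 / 2 - t)) := by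
        push_cast; ring
      rw [e1, abs_neg, abs_of_nonneg (by
        apply mul_nonneg (by positivity); linarith)]
      have e2 : n + 1 / 2 - t ≤ 1 / (2 * (2 * k + 1)) := by linarith
      calc 2 * k * (n + 1 / 2 - t) ≤ 2 * k * (1 / (2 * (2 * k + 1))) :=
            mul_le_mul_of_nonneg_left e2 (by positivity)
        _ = _ := by field_simp
    · rw [abs_of_nonpos hs] at ht h3
      push_cast at ht h3
      refine (dist1_le _ (2 * k * n - k)).trans ?_
      have e1 : t * ((2 * k : ℕ) : ℝ) - ((2 * k * n - k : ℤ) : ℝ) = 2 * k * (t - n + 1 / 2) := by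
        push_cast; ring
      rw [e1, abs_of_nonneg (by
        apply mul_nonneg (by positivity); linarith)]
      have e2 : t - n + 1 / 2 ≤ 1 / (2 * (2 * k + 1)) := by linarith
      calc 2 * k * (t - n + 1 / 2) ≤ 2 * k * (1 / (2 * (2 * k + 1))) :=
            mul_le_mul_of_nonneg_left e2 (by positivity)
        _ = _ := by field_simp

/-- A set with the first `N` multiples of `m` has `κ ≤ 1 / (N + 1)`. -/
lemma kappa_le_of_multiples {V : Finset ℕ} {m N : ℕ} (hN : 0 < N)
    (h : ∀ j, 1 ≤ j → j ≤ N → m * j ∈ V) : kappa V ≤ 1 / (N + 1) := by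
  apply kappa_le
  intro t
  obtain ⟨j, hj1, hj2, hj3⟩ := Real.exists_nat_abs_mul_sub_round_le (t * m) hN
  refine ⟨m * j, h j hj1 hj2, ?_⟩
  unfold dist1
  have : t * ((m * j : ℕ) : ℝ) = j * (t * m) := by push_cast; ring
  rw [this]
  exact hj3

/-- the distance at `t = k / (2 k + 1)` of numbers `≡ 1` modulo `2 k + 1` -/
lemma dist_one (k j : ℕ) : dist1 ((k:ℝ) / (2 * k + 1) * ((1 + j * (2 * k + 1) : ℕ) : ℝ)) =
    k / (2 * k + 1) := by
  have hk : (0:ℝ) ≤ k := Nat.cast_nonneg _
  have h1 : (k:ℝ) / (2 * k + 1) * ((1 + j * (2 * k + 1) : ℕ) : ℝ) = k / (2 * k + 1) + (j * k : ℤ) := by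
    push_cast; field_simp
  unfold dist1
  have h2 : (k:ℝ) / (2 * k + 1) < 1 / 2 := by
    rw [div_lt_div_iff₀ (by positivity) (by norm_num)]; linarith
  have h0 : 0 ≤ (k:ℝ) / (2 * k + 1) := by positivity
  rw [h1, round_add_intCast]
  have h3 : round ((k:ℝ) / (2 * k + 1)) = 0 := by
    rw [round_eq_zero_iff]; constructor <;> simp <;> linarith
  rw [h3]
  push_cast
  rw [show (k:ℝ) / (2 * k + 1) + j * k - (0 + j * k) = k / (2 * k + 1) by ring, abs_of_nonneg h0]

/-- the distance at `t = k / (2 k + 1)` of the number `3` -/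
lemma dist_three {k : ℕ} (hk1 : 1 ≤ k) : dist1 ((k:ℝ) / (2 * k + 1) * ((3 : ℕ) : ℝ)) =
    (k - 1) / (2 * k + 1) := by
  have hk : (1:ℝ) ≤ k := by exact_mod_cast hk1
  have h1 : (k:ℝ) / (2 * k + 1) * ((3 : ℕ) : ℝ) = (k - 1) / (2 * k + 1) + (1 : ℤ) := by
    push_cast; field_simp; ring
  unfold dist1
  have h2 : ((k:ℝ) - 1) / (2 * k + 1) < 1 / 2 := by
    rw [div_lt_div_iff₀ (by positivity) (by norm_num)]; linarith
  have h0 : 0 ≤ ((k:ℝ) - 1) / (2 * k + 1) := div_nonneg (by linarith) (by positivity)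
  rw [h1, round_add_intCast]
  have h3 : round (((k:ℝ) - 1) / (2 * k + 1)) = 0 := by
    rw [round_eq_zero_iff]; constructor <;> simp <;> linarith
  rw [h3]
  push_cast
  rw [show ((k:ℝ) - 1) / (2 * k + 1) + 1 - 1 = (k - 1) / (2 * k + 1) by ring,
    abs_of_nonneg h0]

/-- the progression `1, 1 + m, …, 1 + (N - 1) m` -/
def prog (m N : ℕ) : Finset ℕ := (Finset.range N).image (fun j => 1 + j * m)

lemma card_prog {m : ℕ} (hm : 0 < m) (N : ℕ) : (prog m N).card = N := by
  unfold prog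
  rw [Finset.card_image_of_injective, Finset.card_range]
  intro i j hij
  have : i * m = j * m := by simpa using hij
  exact Nat.eq_of_mul_eq_mul_right hm this

theorem result : ∀ n : ℕ, 2 ≤ n → ∀ ε : ℝ, 0 < ε → ∃ (V : Finset ℕ) (a : ℕ),
    V.card = n ∧ (∀ v ∈ V, 0 < v) ∧ 0 < a ∧
    1 / 2 - ε < kappa V ∧ kappa V < 1 / 2 ∧
    kappa (translate a V) < kappa V ∧ kappa (translate a V) ≤ 1 / n ∧
    (3 ≤ n → V.gcd id = 1 ∧ (translate a V).gcd id = 1) := by
  intro n hn ε hε
  -- choice of `k`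
  obtain ⟨k, hk⟩ := exists_nat_gt (max (3 / ε) 20)
  have hk1 : 3 / ε < k := lt_of_le_of_lt (le_max_left _ _) hk
  have hk2 : (20:ℝ) < k := lt_of_le_of_lt (le_max_right _ _) hk
  have hk2' : 20 < k := by exact_mod_cast hk2
  have hkpos : (0:ℝ) < k := by linarith
  rw [div_lt_iff₀ hε] at hk1
  have hb : 1 / 2 - ε < ((k:ℝ) - 1) / (2 * k + 1) := by
    rw [lt_div_iff₀ (by positivity)]
    nlinarith
  have hb3 : (1:ℝ) / 3 < ((k:ℝ) - 1) / (2 * k + 1) := by
    rw [lt_div_iff₀ (by positivity)]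
    nlinarith
  have hb' : ((k:ℝ) - 1) / (2 * k + 1) ≤ k / (2 * k + 1) := by
    apply div_le_div_of_nonneg_right _ (by positivity); linarith
  rcases Nat.lt_or_ge n 3 with h3 | h3
  · -- two speeds
    obtain rfl : n = 2 := by omega
    have hmem1 : 1 ∈ prog (2 * k + 1) 2 := by
      unfold prog; exact Finset.mem_image.2 ⟨0, by simp, by simp⟩
    have hmem2 : 2 * (k + 1) ∈ prog (2 * k + 1) 2 := by
      unfold prog; exact Finset.mem_image.2 ⟨1, by simp, by ring⟩
    have hlow : (k:ℝ) / (2 * k + 1) ≤ kappa (prog (2 * k + 1) 2) := by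
      apply le_kappa ⟨1, hmem1⟩ (t := (k:ℝ) / (2 * k + 1))
      intro v hv
      obtain ⟨j, _, rfl⟩ := Finset.mem_image.1 hv
      rw [dist_one]
    have hup : kappa (translate (2 * k) (prog (2 * k + 1) 2)) ≤ 1 / ((2:ℕ) + 1) := by
      apply kappa_le_of_multiples (m := 2 * k + 1) (by norm_num)
      intro j hj1 hj2
      unfold translate prog
      rw [Finset.mem_image]
      refine ⟨1 + (j - 1) * (2 * k + 1), Finset.mem_image.2 ⟨j - 1, by
        rw [Finset.mem_range]; omega, rfl⟩, ?_⟩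
      obtain ⟨i, rfl⟩ : ∃ i, j = i + 1 := ⟨j - 1, by omega⟩
      simp only [Nat.add_sub_cancel]; ring
    refine ⟨prog (2 * k + 1) 2, 2 * k, card_prog (by omega) 2, ?_, by omega, ?_,
      kappa_lt_half hmem1 hmem2, ?_, ?_, by omega⟩
    · intro v hv
      obtain ⟨j, _, rfl⟩ := Finset.mem_image.1 hv
      omega
    · linarith
    · have : (1:ℝ) / ((2:ℕ) + 1) = 1 / 3 := by norm_num
      linarith
    · refine hup.trans ?_
      norm_num
  · -- at least three speeds
    have h3not : (3:ℕ) ∉ prog (2 * k + 1) (n - 1) := by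
      intro h
      obtain ⟨j, _, hj⟩ := Finset.mem_image.1 h
      rcases Nat.eq_zero_or_pos j with rfl | hj0
      · omega
      · have hj' : 1 + j * (2 * k + 1) = 3 := hj
        nlinarith
    set V : Finset ℕ := insert 3 (prog (2 * k + 1) (n - 1)) with hV
    have hmem1 : 1 ∈ V := by
      refine Finset.mem_insert_of_mem (Finset.mem_image.2 ⟨0, by
        rw [Finset.mem_range]; omega, by simp⟩)
    have hmem2 : 2 * (k + 1) ∈ V := by
      refine Finset.mem_insert_of_mem (Finset.mem_image.2 ⟨1, by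
        rw [Finset.mem_range]; omega, by ring⟩)
    have hlow : ((k:ℝ) - 1) / (2 * k + 1) ≤ kappa V := by
      apply le_kappa ⟨1, hmem1⟩ (t := (k:ℝ) / (2 * k + 1))
      intro v hv
      rcases Finset.mem_insert.1 hv with rfl | hv
      · rw [dist_three (by omega)]
      · obtain ⟨j, _, rfl⟩ := Finset.mem_image.1 hv
        rw [dist_one]; exact hb'
    have hup : kappa (translate (2 * k) V) ≤ 1 / ((n - 1 : ℕ) + 1) := by
      apply kappa_le_of_multiples (m := 2 * k + 1) (by omega)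
      intro j hj1 hj2
      unfold translate
      rw [Finset.mem_image]
      refine ⟨1 + (j - 1) * (2 * k + 1), Finset.mem_insert_of_mem (Finset.mem_image.2 ⟨j - 1, by
        rw [Finset.mem_range]; omega, rfl⟩), ?_⟩
      obtain ⟨i, rfl⟩ : ∃ i, j = i + 1 := ⟨j - 1, by omega⟩
      simp only [Nat.add_sub_cancel]; ring
    have hn1 : ((n - 1 : ℕ) : ℝ) + 1 = n := by
      have : n - 1 + 1 = n := by omega
      exact_mod_cast this
    rw [hn1] at hup
    refine ⟨V, 2 * k, ?_, ?_, by omega, ?_, kappa_lt_half hmem1 hmem2, ?_, hup, ?_⟩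
    · rw [hV, Finset.card_insert_of_notMem h3not, card_prog (by omega)]; omega
    · intro v hv
      rcases Finset.mem_insert.1 hv with rfl | hv
      · norm_num
      · obtain ⟨j, _, rfl⟩ := Finset.mem_image.1 hv
        omega
    · linarith
    · have : (1:ℝ) / n ≤ 1 / 3 := by
        apply one_div_le_one_div_of_le (by norm_num)
        exact_mod_cast h3
      linarith
    · intro _
      constructor
      · exact Nat.eq_one_of_dvd_one (by simpa using Finset.gcd_dvd (f := id) hmem1)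
      · have hd1 : (translate (2 * k) V).gcd id ∣ 2 * k + 1 := by
          have : 2 * k + 1 ∈ translate (2 * k) V := Finset.mem_image.2 ⟨1, hmem1, rfl⟩
          simpa using Finset.gcd_dvd (f := id) this
        have hd2 : (translate (2 * k) V).gcd id ∣ 2 * k + 3 := by
          have : 2 * k + 3 ∈ translate (2 * k) V :=
            Finset.mem_image.2 ⟨3, Finset.mem_insert_self _ _, rfl⟩
          simpa using Finset.gcd_dvd (f := id) this
        have hd3 : (translate (2 * k) V).gcd id ∣ 2 := by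
          have := Nat.dvd_sub hd2 hd1
          have e : 2 * k + 3 - (2 * k + 1) = 2 := by omega
          rwa [e] at this
        have hd4 : (translate (2 * k) V).gcd id ∣ 1 := by
          have h5 : (translate (2 * k) V).gcd id ∣ 2 * k := hd3.trans (Nat.dvd_mul_right 2 k)
          have := Nat.dvd_sub hd1 h5
          have e : 2 * k + 1 - 2 * k = 1 := by omega
          rwa [e] at this
        exact Nat.eq_one_of_dvd_one hd4

end Pool.Agent.Results.MP_64d5df_nt.TranslatesDrop
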